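import Pool.Agent.H88.RC.Model

/-!
# From a potential on histories to expected step complexity (part M1)
-/

namespace RC

open MeasureTheory Set

open scoped ENNReal

variable {n : ℕ}

namespace Bridge

/-! ### toggling one coin preserves the measure -/

/-- turn over the coin with index `c` -/
def tog (c : Fin n × ℕ) (ω : Coins n) : Coins n := fun d => if d = c then !(ω d) else ω d

theorem tog_tog (c : Fin n × ℕ) (ω : Coins n) : tog c (tog c ω) = ω := by
  funext d
  unfold tog
  split_ifs <;> simp

theorem tog_preserving (c : Fin n × ℕ) :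
    MeasurePreserving (tog c) (coinMeasure n) (coinMeasure n) := by
  have hf : ∀ d : Fin n × ℕ, Measurable (fun b : Bool => if d = c then !b else b) :=
    fun d => measurable_from_top
  have hm : ∀ d : Fin n × ℕ,
      ((PMF.uniformOfFintype Bool).toMeasure).map (fun b : Bool => if d = c then !b else b)
        = (PMF.uniformOfFintype Bool).toMeasure := by
    intro d
    rw [PMF.toMeasure_map _ _ (hf d)]
    congr 1
    by_cases h : d = c
    · simp only [h, if_true]
      ext b
      rw [PMF.map_apply]
      cases b <;> simp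
    · simp only [h, if_false]
      exact PMF.map_id _
  refine ⟨?_, ?_⟩
  · exact measurable_pi_lambda _ fun d => (hf d).comp (measurable_pi_apply d)
  · have h1 := Measure.infinitePi_map_pi
      (μ := fun _ : Fin n × ℕ => (PMF.uniformOfFintype Bool).toMeasure) hf
    have h2 : (fun i : Fin n × ℕ => ((PMF.uniformOfFintype Bool).toMeasure).map
        (fun b : Bool => if i = c then !b else b))
        = fun _ : Fin n × ℕ => (PMF.uniformOfFintype Bool).toMeasure := funext hm
    unfold coinMeasure
    have h3 : tog c = fun (x : Coins n) (i : Fin n × ℕ) => if i = c then !(x i) else x i := rfl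
    rw [h3, h1]
    congr 1

/-! ### the history determines everything -/

open Classical in
/-- number of coins that process `i` has flipped in the history -/
noncomputable def flips (h : List (Event n)) (i : Fin n) : ℕ :=
  h.countP fun e => decide (e.1 = i) && e.2.isSome

theorem flips_snoc (h : List (Event n)) (e : Event n) (i : Fin n) :
    flips (h ++ [e]) i = flips h i + if e.1 = i ∧ e.2.isSome then 1 else 0 := by
  classical
  unfold flips
  rw [List.countP_append]
  congr 1
  by_cases h1 : e.1 = i <;> cases h2 : e.2.isSome <;> simp [h1, h2]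

theorem flips_le_snoc (h : List (Event n)) (e : Event n) (i : Fin n) :
    flips h i ≤ flips (h ++ [e]) i := by
  rw [flips_snoc]; omega

variable (P : Protocol n) (inp : Fin n → Bool) (σ : Adversary n)

/-- the history at time `t` -/
noncomputable def hist (t : ℕ) (ω : Coins n) : List (Event n) := (run P inp σ ω t).hist

theorem step_eq_of_not_flip (c : Config P) (i : Fin n) (b b' : Bool) (h : ¬ P.IsFlip c i) :
    P.step c i b = P.step c i b' := by
  unfold Protocol.step
  unfold Protocol.IsFlip at h
  cases hact : P.act i (c.st i) with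
  | read r next => rfl
  | write r own v next => rfl
  | flip next => exact absurd ⟨next, hact⟩ h
  | decide b => rfl

theorem run_inv (ω : Coins n) (t : ℕ) :
    (run P inp σ ω t).cfg = P.cfgOf inp (run P inp σ ω t).hist ∧
      ∀ i, (run P inp σ ω t).used i = flips (run P inp σ ω t).hist i := by
  classical
  induction t with
  | zero => exact ⟨rfl, fun i => by simp [run, flips]⟩
  | succ t ih =>
      obtain ⟨h1, h2⟩ := ih
      simp only [run]
      split_ifs with hf
      · refine ⟨?_, fun i => ?_⟩
        · simp only [Protocol.cfgOf_snoc, ← h1, Option.getD_some]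
        · simp only [flips_snoc]
          by_cases hi : i = σ (run P inp σ ω t).hist
          · subst hi; simp [h2]
          · rw [Function.update_of_ne hi, h2]
            simp [Ne.symm hi]
      · refine ⟨?_, fun i => ?_⟩
        · simp only [Protocol.cfgOf_snoc, ← h1, Option.getD_none]
          exact step_eq_of_not_flip P _ _ _ _ hf
        · simp only [flips_snoc]
          rw [h2]
          simp

theorem cfg_eq (ω : Coins n) (t : ℕ) :
    (run P inp σ ω t).cfg = P.cfgOf inp (hist P inp σ t ω) := (run_inv P inp σ ω t).1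

open Classical in
/-- the next event -/
noncomputable def nxt (h : List (Event n)) (ω : Coins n) : Event n :=
  if P.IsFlip (P.cfgOf inp h) (σ h) then (σ h, some (ω (σ h, flips h (σ h)))) else (σ h, none)

theorem hist_zero (ω : Coins n) : hist P inp σ 0 ω = [] := rfl

theorem hist_succ (ω : Coins n) (t : ℕ) :
    hist P inp σ (t + 1) ω = hist P inp σ t ω ++ [nxt P inp σ (hist P inp σ t ω) ω] := by
  classical
  obtain ⟨h1, h2⟩ := run_inv P inp σ ω t
  unfold hist nxt
  rw [← h1, ← h2]
  simp only [run]
  split_ifs with hf <;> rfl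

/-- the history depends only on the coins it has used -/
theorem hist_congr (ω ω' : Coins n) (t : ℕ)
    (h : ∀ j k, k < flips (hist P inp σ t ω) j → ω' (j, k) = ω (j, k)) :
    hist P inp σ t ω' = hist P inp σ t ω := by
  induction t with
  | zero => rfl
  | succ t ih =>
      have h1 : hist P inp σ t ω' = hist P inp σ t ω := by
        apply ih
        intro j k hk
        apply h
        rw [hist_succ]
        exact lt_of_lt_of_le hk (flips_le_snoc _ _ _)
      rw [hist_succ, hist_succ, h1]
      congr 2
      unfold nxt
      split_ifs with hf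
      · congr 2
        apply h
        rw [hist_succ, flips_snoc]
        unfold nxt
        rw [if_pos hf]
        simp
      · rfl

theorem hist_tog (ω : Coins n) (t : ℕ) (h : List (Event n)) (j : Fin n)
    (hh : hist P inp σ t ω = h) : hist P inp σ t (tog (j, flips h j) ω) = h := by
  rw [← hh]
  apply hist_congr
  intro i k hk
  unfold tog
  rw [if_neg]
  intro he
  have h1 : i = j := congrArg Prod.fst he
  have h2 : k = flips (hist P inp σ t ω) j := congrArg Prod.snd he
  subst h1
  omega

theorem preimage_tog (t : ℕ) (h : List (Event n)) (j : Fin n) :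
    tog (j, flips h j) ⁻¹' {ω | hist P inp σ t ω = h} = {ω | hist P inp σ t ω = h} := by
  ext ω
  constructor
  · intro hω
    have := hist_tog P inp σ (tog (j, flips h j) ω) t h j hω
    rwa [tog_tog] at this
  · intro hω
    exact hist_tog P inp σ ω t h j hω

theorem measurableSet_hist (t : ℕ) (h : List (Event n)) :
    MeasurableSet {ω | hist P inp σ t ω = h} := by
  classical
  induction t generalizing h with
  | zero =>
      simp only [hist_zero]
      exact MeasurableSet.const _
  | succ t ih =>
      rcases List.eq_nil_or_concat' h with rfl | ⟨h', e, rfl⟩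
      · have : {ω | hist P inp σ (t + 1) ω = []} = ∅ := by
          ext ω
          simp [hist_succ]
        rw [this]
        exact MeasurableSet.empty
      · have : {ω | hist P inp σ (t + 1) ω = h' ++ [e]}
            = {ω | hist P inp σ t ω = h'} ∩ {ω | nxt P inp σ h' ω = e} := by
          ext ω
          simp only [hist_succ, mem_ofPred_eq, mem_inter_iff]
          constructor
          · intro h1
            have h2 := List.append_inj' h1 rfl
            refine ⟨h2.1, ?_⟩
            have h3 := h2.2
            rw [h2.1] at h3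
            simpa using h3
          · rintro ⟨h1, h2⟩
            rw [h1, h2]
        rw [this]
        refine (ih h').inter ?_
        unfold nxt
        by_cases hf : P.IsFlip (P.cfgOf inp h') (σ h')
        · simp only [hf, if_true]
          have : {ω : Coins n | (σ h', some (ω (σ h', flips h' (σ h')))) = e}
              = (fun ω : Coins n => ω (σ h', flips h' (σ h'))) ⁻¹'
                {b : Bool | (σ h', some b) = e} := rfl
          rw [this]
          exact measurable_pi_apply _ (MeasurableSet.of_discrete)
        · simp only [hf, if_false]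
          exact MeasurableSet.const _

theorem measurableSet_hist_mem (t : ℕ) (A : Set (List (Event n))) :
    MeasurableSet {ω | hist P inp σ t ω ∈ A} := by
  have : {ω | hist P inp σ t ω ∈ A} = ⋃ h ∈ A, {ω | hist P inp σ t ω = h} := by
    ext ω; simp
  rw [this]
  exact MeasurableSet.biUnion (to_countable A) fun h _ => measurableSet_hist P inp σ t h

theorem measurable_hist {β : Type*} [MeasurableSpace β] (t : ℕ) (F : List (Event n) → β) :
    Measurable fun ω => F (hist P inp σ t ω) :=
  fun s _ => measurableSet_hist_mem P inp σ t (F ⁻¹' s)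

theorem lintegral_split (t : ℕ) (f : Coins n → ℝ≥0∞) :
    ∫⁻ ω, f ω ∂(coinMeasure n)
      = ∑' h, ∫⁻ ω in {ω | hist P inp σ t ω = h}, f ω ∂(coinMeasure n) := by
  rw [← lintegral_iUnion (fun h => measurableSet_hist P inp σ t h)]
  · have : (⋃ h, {ω | hist P inp σ t ω = h}) = univ := by
      ext ω; simp
    rw [this, Measure.restrict_univ]
  · intro h h' hh
    rw [Function.onFun, Set.disjoint_left]
    intro ω h1 h2
    exact hh (h1.symm.trans h2)

theorem lintegral_step (G : List (Event n) → ℝ≥0∞)
    (hflip : ∀ h i, P.IsFlip (P.cfgOf inp h) i →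
      (G (h ++ [(i, some false)]) + G (h ++ [(i, some true)])) / 2 ≤ G h)
    (hdet : ∀ h i, ¬ P.IsFlip (P.cfgOf inp h) i → G (h ++ [(i, none)]) ≤ G h) (t : ℕ) :
    ∫⁻ ω, G (hist P inp σ (t + 1) ω) ∂(coinMeasure n)
      ≤ ∫⁻ ω, G (hist P inp σ t ω) ∂(coinMeasure n) := by
  rw [lintegral_split P inp σ t, lintegral_split P inp σ t (fun ω => G (hist P inp σ t ω))]
  refine ENNReal.tsum_le_tsum fun h => ?_
  set A : Set (Coins n) := {ω | hist P inp σ t ω = h} with hA
  have hAm : MeasurableSet A := measurableSet_hist P inp σ t h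
  have e1 : ∫⁻ ω in A, G (hist P inp σ t ω) ∂(coinMeasure n) = G h * coinMeasure n A := by
    rw [setLIntegral_congr_fun hAm (g := fun _ => G h), setLIntegral_const]
    intro ω hω
    have : hist P inp σ t ω = h := hω
    simp only [this]
  have e2 : ∫⁻ ω in A, G (hist P inp σ (t + 1) ω) ∂(coinMeasure n)
      = ∫⁻ ω in A, G (h ++ [nxt P inp σ h ω]) ∂(coinMeasure n) := by
    apply setLIntegral_congr_fun hAm
    intro ω hω
    have : hist P inp σ t ω = h := hω
    simp only [hist_succ, this]
  rw [e1, e2]
  by_cases hf : P.IsFlip (P.cfgOf inp h) (σ h)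
  · set c : Fin n × ℕ := (σ h, flips h (σ h)) with hc
    set F : Coins n → ℝ≥0∞ := fun ω => G (h ++ [(σ h, some (ω c))]) with hF
    have e3 : ∫⁻ ω in A, G (h ++ [nxt P inp σ h ω]) ∂(coinMeasure n)
        = ∫⁻ ω in A, F ω ∂(coinMeasure n) := by
      apply lintegral_congr
      intro ω
      simp only [nxt, hf, if_true, hF, hc]
    have hFm : Measurable F := by
      have h1 : Measurable (fun b : Bool => G (h ++ [(σ h, some b)])) := measurable_from_top
      exact h1.comp (measurable_pi_apply c)
    have e4 : ∫⁻ ω in A, F (tog c ω) ∂(coinMeasure n) = ∫⁻ ω in A, F ω ∂(coinMeasure n) := by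
      have h1 := (tog_preserving c).setLIntegral_comp_preimage hAm hFm
      rw [hc, hA, preimage_tog] at h1
      rw [hc, hA]
      exact h1
    have e5 : ∫⁻ ω in A, F ω ∂(coinMeasure n) + ∫⁻ ω in A, F ω ∂(coinMeasure n)
        = (G (h ++ [(σ h, some false)]) + G (h ++ [(σ h, some true)])) * coinMeasure n A := by
      nth_rewrite 2 [← e4]
      rw [← lintegral_add_left hFm, ← setLIntegral_const]
      apply lintegral_congr
      intro ω
      simp only [hF, tog, if_true]
      cases ω c
      · simp
      · simp only [Bool.not_true]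
        exact add_comm _ _
    rw [e3]
    calc ∫⁻ ω in A, F ω ∂(coinMeasure n)
        = (∫⁻ ω in A, F ω ∂(coinMeasure n) + ∫⁻ ω in A, F ω ∂(coinMeasure n)) / 2 := by
          rw [ENNReal.add_div, ENNReal.add_halves]
      _ = (G (h ++ [(σ h, some false)]) + G (h ++ [(σ h, some true)])) / 2
            * coinMeasure n A := by
          rw [e5, ENNReal.mul_div_right_comm]
      _ ≤ G h * coinMeasure n A := by
          gcongr
          exact hflip h _ hf
  · have e3 : ∫⁻ ω in A, G (h ++ [nxt P inp σ h ω]) ∂(coinMeasure n)
        = G (h ++ [(σ h, none)]) * coinMeasure n A := by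
      rw [← setLIntegral_const]
      apply lintegral_congr
      intro ω
      simp only [nxt, hf, if_false]
    rw [e3]
    gcongr
    exact hdet h _ hf

theorem lintegral_le (G : List (Event n) → ℝ≥0∞)
    (hflip : ∀ h i, P.IsFlip (P.cfgOf inp h) i →
      (G (h ++ [(i, some false)]) + G (h ++ [(i, some true)])) / 2 ≤ G h)
    (hdet : ∀ h i, ¬ P.IsFlip (P.cfgOf inp h) i → G (h ++ [(i, none)]) ≤ G h) (t : ℕ) :
    ∫⁻ ω, G (hist P inp σ t ω) ∂(coinMeasure n) ≤ G [] := by
  induction t with
  | zero =>
      simp only [hist_zero]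
      rw [lintegral_const]
      have : IsProbabilityMeasure (coinMeasure n) := by
        unfold coinMeasure; infer_instance
      simp
  | succ t ih => exact (lintegral_step P inp σ G hflip hdet t).trans ih

/-! ### work -/

theorem work_fst (h : List (Event n)) (i : Fin n) (c : Config P) (m : ℕ) :
    open Classical in
    (h.foldl (fun (cm : Config P × ℕ) e => (P.step cm.1 e.1 (e.2.getD false),
    cm.2 + if e.1 = i ∧ ∀ b, ¬ P.Decides cm.1 i b then 1 else 0)) (c, m)).1
      = h.foldl (fun c e => P.step c e.1 (e.2.getD false)) c := by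
  induction h generalizing c m with
  | nil => rfl
  | cons e h ih =>
      simp only [List.foldl_cons]
      rw [ih]

open Classical in
theorem work_snoc (h : List (Event n)) (e : Event n) (i : Fin n) :
    P.work inp (h ++ [e]) i
      = P.work inp h i + if e.1 = i ∧ ∀ b, ¬ P.Decides (P.cfgOf inp h) i b then 1 else 0 := by
  unfold Protocol.work
  rw [List.foldl_append]
  simp only [List.foldl_cons, List.foldl_nil]
  rw [work_fst]
  rfl

theorem work_nil (i : Fin n) : P.work inp [] i = 0 := rfl

open Classical in
/-- process `i` makes a step (other than `decide`) at time `t` -/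
noncomputable def moves (i : Fin n) (t : ℕ) (ω : Coins n) : ℝ≥0∞ :=
  if σ (hist P inp σ t ω) = i ∧ ∀ b, ¬ P.Decides (P.cfgOf inp (hist P inp σ t ω)) i b then 1 else 0

theorem nxt_fst (h : List (Event n)) (ω : Coins n) : (nxt P inp σ h ω).1 = σ h := by
  unfold nxt; split_ifs <;> rfl

theorem sum_moves (i : Fin n) (N : ℕ) (ω : Coins n) :
    ∑ t ∈ Finset.range N, moves P inp σ i t ω = (P.work inp (hist P inp σ N ω) i : ℝ≥0∞) := by
  classical
  induction N with
  | zero => simp [hist_zero, work_nil]
  | succ N ih =>
      rw [Finset.sum_range_succ, ih, hist_succ, work_snoc, nxt_fst]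
      unfold moves
      split_ifs <;> simp

theorem lintegral_tsum_moves (G : List (Event n) → ℝ≥0∞) (C : ℝ≥0∞)
    (hflip : ∀ h i, P.IsFlip (P.cfgOf inp h) i →
      (G (h ++ [(i, some false)]) + G (h ++ [(i, some true)])) / 2 ≤ G h)
    (hdet : ∀ h i, ¬ P.IsFlip (P.cfgOf inp h) i → G (h ++ [(i, none)]) ≤ G h)
    (hwork : ∀ h i, (P.work inp h i : ℝ≥0∞) ≤ G h) (h0 : G [] ≤ C) (i : Fin n) :
    ∫⁻ ω, ∑' t, moves P inp σ i t ω ∂(coinMeasure n) ≤ C := by
  have hm : ∀ t, Measurable (moves P inp σ i t) := by
    classical
    intro t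
    exact measurable_hist P inp σ t (fun h =>
      if σ h = i ∧ ∀ b, ¬ P.Decides (P.cfgOf inp h) i b then (1 : ℝ≥0∞) else 0)
  rw [lintegral_tsum (fun t => (hm t).aemeasurable), ENNReal.tsum_eq_iSup_nat]
  refine iSup_le fun N => ?_
  rw [← lintegral_finsetSum _ (fun t _ => hm t)]
  calc ∫⁻ ω, ∑ t ∈ Finset.range N, moves P inp σ i t ω ∂(coinMeasure n)
      = ∫⁻ ω, (P.work inp (hist P inp σ N ω) i : ℝ≥0∞) ∂(coinMeasure n) := by
        apply lintegral_congr
        intro ω
        exact sum_moves P inp σ i N ω
    _ ≤ ∫⁻ ω, G (hist P inp σ N ω) ∂(coinMeasure n) :=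
        lintegral_mono fun ω => hwork _ i
    _ ≤ G [] := lintegral_le P inp σ G hflip hdet N
    _ ≤ C := h0

end Bridge

open Bridge in
/-- Main bridge (part M1): agreement and validity on all histories, and a supermartingale `G` on the
tree of histories which dominates the work of every process. -/
theorem of_potential (P : Protocol n) (C : ℝ≥0∞) (hC : C ≠ ⊤)
    (hagree : ∀ inp h i j b b', P.Decides (P.cfgOf inp h) i b → P.Decides (P.cfgOf inp h) j b' →
      b = b')
    (hvalid : ∀ inp h i b, P.Decides (P.cfgOf inp h) i b → ∃ j, inp j = b)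
    (G : (Fin n → Bool) → List (Event n) → ℝ≥0∞)
    (hflip : ∀ inp h i, P.IsFlip (P.cfgOf inp h) i →
      (G inp (h ++ [(i, some false)]) + G inp (h ++ [(i, some true)])) / 2 ≤ G inp h)
    (hdet : ∀ inp h i, ¬ P.IsFlip (P.cfgOf inp h) i → G inp (h ++ [(i, none)]) ≤ G inp h)
    (hwork : ∀ inp h i, (P.work inp h i : ℝ≥0∞) ≤ G inp h)
    (h0 : ∀ inp, G inp [] ≤ C) :
    IsConsensus P ∧ stepComplexity P ≤ C := by
  classical
  have hmain : ∀ inp σ i, ∫⁻ ω, ∑' t, moves P inp σ i t ω ∂(coinMeasure n) ≤ C := fun inp σ i =>
    lintegral_tsum_moves P inp σ (G inp) C (hflip inp) (hdet inp) (hwork inp) (h0 inp) i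
  refine ⟨⟨?_, ?_, ?_⟩, ?_⟩
  · intro inp σ ω t i j b b' h1 h2
    rw [cfg_eq] at h1 h2
    exact hagree inp _ i j b b' h1 h2
  · intro inp σ ω t i b h1
    rw [cfg_eq] at h1
    exact hvalid inp _ i b h1
  · intro inp σ i
    have hm : ∀ t, Measurable (moves P inp σ i t) := by
      intro t
      exact measurable_hist P inp σ t (fun h =>
        if σ h = i ∧ ∀ b, ¬ P.Decides (P.cfgOf inp h) i b then (1 : ℝ≥0∞) else 0)
    have h1 := ae_lt_top (Measurable.tsum hm)
      (ne_of_lt (lt_of_le_of_lt (hmain inp σ i) (lt_top_iff_ne_top.mpr hC)))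
    filter_upwards [h1] with ω hω hinf
    by_contra hcon
    push Not at hcon
    have h2 := ENNReal.tendsto_atTop_zero_of_tsum_ne_top hω.ne
    have h3 : ∀ᶠ t in Filter.atTop, moves P inp σ i t ω < 1 :=
      h2.eventually_lt_const (by norm_num)
    obtain ⟨T, hT⟩ := Filter.eventually_atTop.mp h3
    obtain ⟨t, ht, hmov⟩ := hinf T
    have h4 := hT t ht
    have h5 : moves P inp σ i t ω = 1 := by
      unfold moves
      rw [if_pos]
      refine ⟨hmov, fun b => ?_⟩
      rw [← cfg_eq]
      exact hcon t b
    rw [h5] at h4
    exact lt_irrefl _ h4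
  · unfold stepComplexity
    refine iSup_le fun inp => iSup_le fun σ => iSup_le fun i => ?_
    refine le_trans (lintegral_mono fun ω => ?_) (hmain inp σ i)
    unfold ops
    refine ENNReal.tsum_le_tsum fun t => ?_
    unfold moves
    by_cases h1 : mover P inp σ ω t = i ∧ P.IsOp (run P inp σ ω t).cfg i
    · rw [if_pos h1, if_pos]
      refine ⟨h1.1, fun b hb => ?_⟩
      rw [← cfg_eq] at hb
      rcases h1.2 with ⟨r, next, h2⟩ | ⟨r, own, v, next, h2⟩
      · unfold Protocol.Decides at hb
        rw [h2] at hb
        cases hb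
      · unfold Protocol.Decides at hb
        rw [h2] at hb
        cases hb
    · rw [if_neg h1]
      exact zero_le

end RC
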