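import Pool.Agent.H88.RC.Model

/-!
# The lower bound `S n ≥ n - 1` (part M2)
-/

namespace RC

open MeasureTheory Set

open scoped ENNReal

variable {n : ℕ}

namespace Lower

variable (P : Protocol n)

open Classical in
/-- one step of process `i` in an execution -/
noncomputable def next (e : Exec P) (i : Fin n) (ω : Coins n) : Exec P :=
  if P.IsFlip e.cfg i then
    ⟨P.step e.cfg i (ω (i, e.used i)), e.hist ++ [(i, some (ω (i, e.used i)))],
      Function.update e.used i (e.used i + 1)⟩
  else
    ⟨P.step e.cfg i (ω (i, e.used i)), e.hist ++ [(i, none)], e.used⟩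

theorem run_succ (inp : Fin n → Bool) (σ : Adversary n) (ω : Coins n) (t : ℕ) :
    run P inp σ ω (t + 1) = next P (run P inp σ ω t) (σ (run P inp σ ω t).hist) ω := by
  classical
  simp only [run, next]

theorem length_next (e : Exec P) (i : Fin n) (ω : Coins n) :
    (next P e i ω).hist.length = e.hist.length + 1 := by
  unfold next
  split_ifs <;> simp

theorem length_hist (inp : Fin n → Bool) (σ : Adversary n) (ω : Coins n) (t : ℕ) :
    (run P inp σ ω t).hist.length = t := by
  induction t with
  | zero => rfl
  | succ t ih => rw [run_succ, length_next, ih]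

/-- two executions look the same to process `i`, as far as the registers in `R` are concerned -/
structure Sim (i : Fin n) (R : Set P.Reg) (e e' : Exec P) : Prop where
  st : e.cfg.st i = e'.cfg.st i
  used : e.used i = e'.used i
  mem : ∀ r ∈ R, e.cfg.mem r = e'.cfg.mem r

variable {P}

theorem Sim.next {i : Fin n} {R : Set P.Reg} {e e' : Exec P} (h : Sim P i R e e')
    (ω : Coins n)
    (hr : ∀ r nx, P.act i (e.cfg.st i) = .read r nx → r ∈ R) :
    Sim P i R (next P e i ω) (next P e' i ω) := by
  classical
  have hfl : P.IsFlip e.cfg i ↔ P.IsFlip e'.cfg i := by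
    unfold Protocol.IsFlip; rw [h.st]
  have hstep1 : ∀ b, (P.step e.cfg i b).st i = (P.step e'.cfg i b).st i := by
    intro b
    unfold Protocol.step
    rw [← h.st]
    cases hact : P.act i (e.cfg.st i) with
    | read r nx => simp [h.mem r (hr r nx hact)]
    | write r own v nx => simp
    | flip nx => simp
    | decide b => exact h.st
  have hstep2 : ∀ b, ∀ r ∈ R, (P.step e.cfg i b).mem r = (P.step e'.cfg i b).mem r := by
    intro b r hrR
    unfold Protocol.step
    rw [← h.st]
    cases hact : P.act i (e.cfg.st i) with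
    | read r' nx => exact h.mem r hrR
    | write r' own v nx =>
        by_cases hrr : r = r'
        · subst hrr; simp
        · simp [Function.update_of_ne hrr, h.mem r hrR]
    | flip nx => exact h.mem r hrR
    | decide b => exact h.mem r hrR
  unfold Lower.next
  by_cases hf : P.IsFlip e.cfg i
  · rw [if_pos hf, if_pos (hfl.mp hf)]
    refine ⟨?_, ?_, ?_⟩
    · simp only [← h.used]; exact hstep1 _
    · simp [h.used]
    · simp only [← h.used]; exact hstep2 _
  · rw [if_neg hf, if_neg (fun h' => hf (hfl.mpr h'))]
    refine ⟨?_, ?_, ?_⟩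
    · simp only [← h.used]; exact hstep1 _
    · exact h.used
    · simp only [← h.used]; exact hstep2 _

/-- a step of `j` does not change anything of `i ≠ j`, nor the registers of the others -/
theorem next_st_of_ne (e : Exec P) {i j : Fin n} (hij : i ≠ j) (ω : Coins n) :
    (next P e j ω).cfg.st i = e.cfg.st i ∧ (next P e j ω).used i = e.used i ∧
      ∀ r, P.owner r ≠ j → (next P e j ω).cfg.mem r = e.cfg.mem r := by
  classical
  have h1 : ∀ b, (P.step e.cfg j b).st i = e.cfg.st i := by
    intro b
    unfold Protocol.step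
    cases hact : P.act j (e.cfg.st j) <;> simp [Function.update_of_ne hij]
  have h2 : ∀ b, ∀ r, P.owner r ≠ j → (P.step e.cfg j b).mem r = e.cfg.mem r := by
    intro b r hr
    unfold Protocol.step
    cases hact : P.act j (e.cfg.st j) with
    | read r' nx => rfl
    | write r' own v nx =>
        have hrr : r ≠ r' := by
          rintro rfl; exact hr own
        simp [Function.update_of_ne hrr]
    | flip nx => rfl
    | decide b => rfl
  unfold next
  split_ifs with hf
  · exact ⟨h1 _, by simp [Function.update_of_ne hij], h2 _⟩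
  · exact ⟨h1 _, rfl, h2 _⟩

/-- a decision is final -/
theorem decides_next (e : Exec P) (i j : Fin n) (b : Bool) (ω : Coins n)
    (h : P.Decides e.cfg i b) : P.Decides (next P e j ω).cfg i b := by
  classical
  unfold Protocol.Decides at h ⊢
  by_cases hij : i = j
  · subst hij
    have hf : ¬ P.IsFlip e.cfg i := by
      rintro ⟨nx, hnx⟩
      rw [h] at hnx
      cases hnx
    unfold next
    rw [if_neg hf]
    have : ∀ b', P.step e.cfg i b' = e.cfg := by
      intro b'
      unfold Protocol.step
      rw [h]
    simp only [this]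
    exact h
  · rw [(next_st_of_ne e hij ω).1]
    exact h

variable (P)

/-- the adversary which lets only process `i` run -/
def solo (i : Fin n) : Adversary n := fun _ => i

theorem run_solo_succ (inp : Fin n → Bool) (i : Fin n) (ω : Coins n) (t : ℕ) :
    run P inp (solo i) ω (t + 1) = next P (run P inp (solo i) ω t) i ω := by
  rw [run_succ]; rfl

/-- the solo execution of `i` depends only on the input of `i` -/
theorem sim_solo (inp inp' : Fin n → Bool) (i : Fin n) (h : inp i = inp' i) (ω : Coins n)
    (t : ℕ) : Sim P i univ (run P inp (solo i) ω t) (run P inp' (solo i) ω t) := by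
  induction t with
  | zero =>
      refine ⟨?_, rfl, fun _ _ => rfl⟩
      change P.start i (inp i) = P.start i (inp' i)
      rw [h]
  | succ t ih =>
      rw [run_solo_succ, run_solo_succ]
      exact ih.next ω fun _ _ _ => mem_univ _

/-- first `j` alone for `t₁` steps, then `p` alone -/
def two (j p : Fin n) (t₁ : ℕ) : Adversary n := fun h => if h.length < t₁ then j else p

theorem run_two_lt (inp : Fin n → Bool) (j p : Fin n) (t₁ : ℕ) (ω : Coins n) (t : ℕ)
    (ht : t ≤ t₁) : run P inp (two j p t₁) ω t = run P inp (solo j) ω t := by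
  induction t with
  | zero => rfl
  | succ t ih =>
      rw [run_solo_succ, run_succ, ih (by omega)]
      congr 1
      unfold two
      rw [if_pos]
      rw [length_hist]
      omega

theorem run_two_ge (inp : Fin n → Bool) (j p : Fin n) (t₁ : ℕ) (ω : Coins n) (t : ℕ) :
    run P inp (two j p t₁) ω (t₁ + t + 1) = next P (run P inp (two j p t₁) ω (t₁ + t)) p ω := by
  rw [run_succ]
  congr 1
  unfold two
  rw [if_neg]
  rw [length_hist]
  omega

/-- a solo run of `j` does not change anything of `i ≠ j` -/
theorem solo_untouched (inp : Fin n → Bool) {i j : Fin n} (hij : i ≠ j) (ω : Coins n) (t : ℕ) :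
    (run P inp (solo j) ω t).cfg.st i = P.start i (inp i) ∧ (run P inp (solo j) ω t).used i = 0 ∧
      ∀ r, P.owner r ≠ j → (run P inp (solo j) ω t).cfg.mem r = P.init r := by
  induction t with
  | zero => exact ⟨rfl, rfl, fun _ _ => rfl⟩
  | succ t ih =>
      rw [run_solo_succ]
      obtain ⟨h1, h2, h3⟩ := next_st_of_ne (run P inp (solo j) ω t) hij ω
      refine ⟨h1.trans ih.1, h2.trans ih.2.1, fun r hr => ?_⟩
      rw [h3 r hr, ih.2.2 r hr]

/-- If `p` does not read a register of `j` in its first `t` solo steps, then it does not notice that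
`j` has run before. -/
theorem sim_two (inp : Fin n → Bool) {j p : Fin n} (hpj : p ≠ j) (t₁ : ℕ) (ω : Coins n) (t : ℕ)
    (hno : ∀ s < t, ∀ r nx, P.act p ((run P inp (solo p) ω s).cfg.st p) = .read r nx →
      P.owner r ≠ j) :
    Sim P p {r | P.owner r ≠ j} (run P inp (solo p) ω t) (run P inp (two j p t₁) ω (t₁ + t)) := by
  induction t with
  | zero =>
      obtain ⟨h1, h2, h3⟩ := solo_untouched P inp hpj ω t₁
      rw [Nat.add_zero, run_two_lt P inp j p t₁ ω t₁ le_rfl]
      exact ⟨h1.symm, h2.symm, fun r hr => (h3 r hr).symm⟩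
  | succ t ih =>
      have h := ih fun s hs => hno s (by omega)
      rw [run_solo_succ, ← add_assoc, run_two_ge]
      exact h.next ω (hno t (by omega))

theorem decides_mono (inp : Fin n → Bool) (σ : Adversary n) (ω : Coins n) (i : Fin n) (b : Bool)
    (t s : ℕ) (h : P.Decides (run P inp σ ω t).cfg i b) :
    P.Decides (run P inp σ ω (t + s)).cfg i b := by
  induction s with
  | zero => exact h
  | succ s ih =>
      rw [← add_assoc, run_succ]
      exact decides_next _ _ _ _ _ ih

/-- In the solo run of `p` (with input `false`, the others have `true`) every other process must be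
read. -/
theorem exists_read (hP : IsConsensus P) (inp : Fin n → Bool) {p j : Fin n} (hpj : p ≠ j)
    (hp : inp p = false) (hj : inp j = true) (ω : Coins n)
    (tp : ∃ t b, P.Decides (run P inp (solo p) ω t).cfg p b)
    (tj : ∃ t b, P.Decides (run P inp (solo j) ω t).cfg j b) :
    ∃ t r nx, P.act p ((run P inp (solo p) ω t).cfg.st p) = .read r nx ∧ P.owner r = j := by
  by_contra hcon
  push Not at hcon
  obtain ⟨t, b, hb⟩ := tp
  obtain ⟨t₁, b₁, hb₁⟩ := tj
  -- `j` decides `true`
  have hj' : b₁ = true := by
    have h1 := sim_solo P inp (fun _ => true) j hj ω t₁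
    have h2 : P.Decides (run P (fun _ => true) (solo j) ω t₁).cfg j b₁ := by
      unfold Protocol.Decides at hb₁ ⊢
      rw [← h1.st]
      exact hb₁
    obtain ⟨k, hk⟩ := hP.validity _ _ _ _ _ _ h2
    exact hk.symm
  have hp' : b = false := by
    have h1 := sim_solo P inp (fun _ => false) p hp ω t
    have h2 : P.Decides (run P (fun _ => false) (solo p) ω t).cfg p b := by
      unfold Protocol.Decides at hb ⊢
      rw [← h1.st]
      exact hb
    obtain ⟨k, hk⟩ := hP.validity _ _ _ _ _ _ h2
    exact hk.symm
  have h3 := sim_two P inp hpj t₁ ω t fun s _ r nx h => hcon s r nx h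
  have h4 : P.Decides (run P inp (two j p t₁) ω (t₁ + t)).cfg p b := by
    unfold Protocol.Decides at hb ⊢
    rw [← h3.st]
    exact hb
  have h5 : P.Decides (run P inp (two j p t₁) ω (t₁ + t)).cfg j b₁ := by
    apply decides_mono
    rw [run_two_lt P inp j p t₁ ω t₁ le_rfl]
    exact hb₁
  have h6 := hP.agreement _ _ _ _ _ _ _ _ h4 h5
  rw [hj', hp'] at h6
  cases h6

theorem solo_terminates (hP : IsConsensus P) (inp : Fin n → Bool) (i : Fin n) :
    ∀ᵐ ω ∂(coinMeasure n), ∃ t b, P.Decides (run P inp (solo i) ω t).cfg i b := by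
  filter_upwards [hP.termination inp (solo i) i] with ω hω
  exact hω fun T => ⟨T, le_rfl, rfl⟩

theorem ops_ge (hP : IsConsensus P) (inp : Fin n → Bool) (p : Fin n) (hp : inp p = false)
    (hj : ∀ j, j ≠ p → inp j = true) (ω : Coins n)
    (term : ∀ i, ∃ t b, P.Decides (run P inp (solo i) ω t).cfg i b) :
    ((n - 1 : ℕ) : ℝ≥0∞) ≤ ops P inp (solo p) p ω := by
  classical
  have h1 : ∀ j : {j : Fin n // j ≠ p}, ∃ t, ∃ r nx,
      P.act p ((run P inp (solo p) ω t).cfg.st p) = .read r nx ∧ P.owner r = j.1 := fun j =>
    exists_read P hP inp (Ne.symm j.2) hp (hj j.1 j.2) ω (term p) (term j.1)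
  choose f r nx hact how using h1
  have hinj : Function.Injective f := by
    intro j j' hjj
    have h2 := hact j
    rw [hjj, hact j'] at h2
    have h3 : r j' = r j := by
      injection h2
    apply Subtype.ext
    rw [← how j, ← how j', h3]
  unfold ops
  have hcard : Fintype.card {j : Fin n // j ≠ p} = n - 1 := by
    rw [Fintype.card_subtype_compl, Fintype.card_fin, Fintype.card_subtype_eq]
  have h4 : ((n - 1 : ℕ) : ℝ≥0∞) = ∑ t ∈ Finset.univ.image f,
      (if mover P inp (solo p) ω t = p ∧ P.IsOp (run P inp (solo p) ω t).cfg p then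
        (1 : ℝ≥0∞) else 0) := by
    rw [Finset.sum_image (fun a _ b _ h => hinj h)]
    rw [Finset.sum_congr rfl (g := fun _ => (1 : ℝ≥0∞))]
    · rw [Finset.sum_const, Finset.card_univ, hcard]
      simp
    · intro j _
      rw [if_pos]
      exact ⟨rfl, Or.inl ⟨_, _, hact j⟩⟩
  rw [h4]
  exact ENNReal.sum_le_tsum _

end Lower

open Lower in
/-- Every protocol needs at least `n - 1` register operations (already in a solo execution). -/
theorem lower (P : Protocol n) (hP : IsConsensus P) : ((n - 1 : ℕ) : ℝ≥0∞) ≤ stepComplexity P := by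
  rcases Nat.eq_zero_or_pos n with hn | hn
  · subst hn
    simp
  let p : Fin n := ⟨0, hn⟩
  let inp : Fin n → Bool := fun j => decide (j ≠ p)
  have hterm : ∀ᵐ ω ∂(coinMeasure n), ∀ i, ∃ t b, P.Decides (run P inp (solo i) ω t).cfg i b :=
    ae_all_iff.mpr fun i => solo_terminates P hP inp i
  have hprob : IsProbabilityMeasure (coinMeasure n) := by
    unfold coinMeasure; infer_instance
  calc ((n - 1 : ℕ) : ℝ≥0∞) = ∫⁻ _, ((n - 1 : ℕ) : ℝ≥0∞) ∂(coinMeasure n) := by
        rw [lintegral_const]; simp
    _ ≤ ∫⁻ ω, ops P inp (solo p) p ω ∂(coinMeasure n) := by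
        apply lintegral_mono_ae
        filter_upwards [hterm] with ω hω
        exact ops_ge P hP inp p (by simp [inp]) (fun j hj => by simp [inp, hj]) ω hω
    _ ≤ stepComplexity P := by
        unfold stepComplexity
        exact le_iSup_of_le inp (le_iSup_of_le (solo p) (le_iSup_of_le p le_rfl))

end RC
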