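import Pool.Agent.H88.RC.Model
import Pool.Agent.H88.RC.Sub
import Pool.Agent.H79.RC.Bridge
import Pool.Agent.H79.RC.Lower

/-!
# Assembly: from the two stages of the coin and the consensus protocol to `S n = Θ(n)`
-/

namespace RC

open MeasureTheory Set Filter

open scoped ENNReal

/-- statement of part C -/
def ConsStatement : Prop :=
  ∀ (n T1 T2 K : ℕ) (δ1 δ2 : ℝ), 0 < δ1 → 0 < δ2 → Stage1 n T1 K δ1 → Stage2 n T2 K δ2 →
    ∃ P : Protocol n,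
      (∀ inp h i j b b', P.Decides (P.cfgOf inp h) i b → P.Decides (P.cfgOf inp h) j b' → b = b') ∧
      (∀ inp h i b, P.Decides (P.cfgOf inp h) i b → ∃ j, inp j = b) ∧
      ∃ G : (Fin n → Bool) → List (Event n) → ℝ≥0∞,
        (∀ inp h i, P.IsFlip (P.cfgOf inp h) i →
          (G inp (h ++ [(i, some false)]) + G inp (h ++ [(i, some true)])) / 2 ≤ G inp h) ∧
        (∀ inp h i, ¬ P.IsFlip (P.cfgOf inp h) i → G inp (h ++ [(i, none)]) ≤ G inp h) ∧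
        (∀ inp h i, (P.work inp h i : ℝ≥0∞) ≤ G inp h) ∧
        (∀ inp, G inp [] ≤ ENNReal.ofReal ((1 / (δ1 * δ2) + 3) * (2 * n + 2 + T1 + T2)))

/-- statement of stage 1 -/
def Stage1Statement : Prop :=
  ∃ δ : ℝ, 0 < δ ∧ ∃ C : ℕ, ∀ᶠ n : ℕ in atTop, ∃ K T : ℕ, 1 ≤ K ∧ K ^ 3 ≤ n ∧ T ≤ C * n ∧
    Nonempty (Stage1 n T K δ)

/-- statement of stage 2 -/
def Stage2Statement : Prop :=
  ∃ δ : ℝ, 0 < δ ∧ ∃ C : ℕ, ∀ n K : ℕ, 1 ≤ K → K ^ 3 ≤ n → ∃ T ≤ C * n, Nonempty (Stage2 n T K δ)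

theorem lower_S (n : ℕ) : ((n - 1 : ℕ) : ℝ≥0∞) ≤ S n :=
  le_iInf fun P => le_iInf fun hP => lower P hP

theorem upper_S (hc : ConsStatement) (h1 : Stage1Statement) (h2 : Stage2Statement) :
    ∃ C : ℕ, ∀ᶠ n : ℕ in atTop, S n ≤ (C * n : ℕ) := by
  obtain ⟨δ1, hδ1, C1, h1⟩ := h1
  obtain ⟨δ2, hδ2, C2, h2⟩ := h2
  refine ⟨⌈(1 / (δ1 * δ2) + 3) * (4 + C1 + C2)⌉₊, ?_⟩
  filter_upwards [h1, eventually_ge_atTop 1] with n hn hn1
  obtain ⟨K, T1, hK, hK3, hT1, ⟨A⟩⟩ := hn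
  obtain ⟨T2, hT2, ⟨B⟩⟩ := h2 n K hK hK3
  obtain ⟨P, hag, hval, G, hfl, hdet, hw, h0⟩ := hc n T1 T2 K δ1 δ2 hδ1 hδ2 A B
  obtain ⟨hP, hS⟩ := of_potential P _ ENNReal.ofReal_ne_top hag hval G hfl hdet hw h0
  refine (iInf₂_le P hP).trans (hS.trans ?_)
  rw [← ENNReal.ofReal_natCast]
  apply ENNReal.ofReal_le_ofReal
  have hpos : 0 < 1 / (δ1 * δ2) + 3 := by positivity
  have hn1' : (1 : ℝ) ≤ n := by exact_mod_cast hn1
  have hT1' : (T1 : ℝ) ≤ C1 * n := by exact_mod_cast hT1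
  have hT2' : (T2 : ℝ) ≤ C2 * n := by exact_mod_cast hT2
  calc (1 / (δ1 * δ2) + 3) * (2 * n + 2 + T1 + T2)
      ≤ (1 / (δ1 * δ2) + 3) * ((4 + C1 + C2) * n) := by
        apply mul_le_mul_of_nonneg_left _ hpos.le
        nlinarith
    _ = ((1 / (δ1 * δ2) + 3) * (4 + C1 + C2)) * n := by ring
    _ ≤ (⌈(1 / (δ1 * δ2) + 3) * (4 + C1 + C2)⌉₊ : ℝ) * n := by
        apply mul_le_mul_of_nonneg_right (Nat.le_ceil _)
        positivity
    _ = _ := by push_cast; ring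

/-- `S n = Θ(n)` -/
theorem theta_S (hc : ConsStatement) (h1 : Stage1Statement) (h2 : Stage2Statement) :
    (∀ n : ℕ, ((n - 1 : ℕ) : ℝ≥0∞) ≤ S n) ∧
      (∃ C : ℕ, ∀ᶠ n : ℕ in atTop, S n ≤ (C * n : ℕ)) ∧
      (fun n => (S n).toReal) =Θ[atTop] (fun n : ℕ => (n : ℝ)) := by
  obtain ⟨C, hC⟩ := upper_S hc h1 h2
  refine ⟨lower_S, ⟨C, hC⟩, ?_, ?_⟩
  · apply Asymptotics.IsBigO.of_bound (C : ℝ)
    filter_upwards [hC] with n hn
    rw [Real.norm_of_nonneg ENNReal.toReal_nonneg, Real.norm_of_nonneg (Nat.cast_nonneg n)]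
    have h := ENNReal.toReal_mono (ENNReal.natCast_ne_top _) hn
    rw [ENNReal.toReal_natCast] at h
    exact_mod_cast h
  · apply Asymptotics.IsBigO.of_bound (2 : ℝ)
    filter_upwards [hC, eventually_ge_atTop 2] with n hn hn2
    rw [Real.norm_of_nonneg ENNReal.toReal_nonneg, Real.norm_of_nonneg (Nat.cast_nonneg n)]
    have hfin : S n ≠ ⊤ := ne_top_of_le_ne_top (ENNReal.natCast_ne_top _) hn
    have h := ENNReal.toReal_mono hfin (lower_S n)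
    rw [ENNReal.toReal_natCast] at h
    have h3 : ((n - 1 : ℕ) : ℝ) = n - 1 := by
      push_cast [Nat.cast_sub (show 1 ≤ n by omega)]; ring
    have hn2' : (2 : ℝ) ≤ n := by exact_mod_cast hn2
    rw [h3] at h
    linarith

end RC
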