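import Pool.Agent.H88.RC.Sub
import Pool.Agent.H88.RC.Poly

/-!
# The certificate of stage 1 as a function of a few real numbers

`certVal` is a submartingale when the frozen sum `Z` and the sums `D p` move by fair steps and the
clocks `Φ`, `Q p` increase by the squares of the steps (a frozen quantity has step `0`).
-/

namespace RC

open Finset

variable {n : ℕ}

/-- the value of the certificate -/
noncomputable def certVal (κ θ lam x s Z Φ : ℝ) (D Q : Fin n → ℝ) : ℝ :=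
  max 0 (max 0 (Fz κ 12 (s * Z) Φ / 64) -
    ∑ p, Real.exp (-(θ * (s * D p)) - θ * lam + θ ^ 2 * (x - Q p) / 2))

theorem certVal_nonneg (κ θ lam x s Z Φ : ℝ) (D Q : Fin n → ℝ) :
    0 ≤ certVal κ θ lam x s Z Φ D Q := le_max_left _ _

theorem certVal_le_one (κ θ lam x s Z Φ : ℝ) (D Q : Fin n → ℝ) (hκ : κ ≤ 1) (hΦ0 : 0 ≤ Φ)
    (hΦ : Φ ≤ 11 / 10) : certVal κ θ lam x s Z Φ D Q ≤ 1 := by
  have h1 := Fz_le κ (s * Z) Φ hκ hΦ0 hΦ
  have h2 : 0 ≤ ∑ p, Real.exp (-(θ * (s * D p)) - θ * lam + θ ^ 2 * (x - Q p) / 2) :=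
    Finset.sum_nonneg fun p _ => (Real.exp_pos _).le
  unfold certVal
  refine max_le zero_le_one ?_
  have h3 : max 0 (Fz κ 12 (s * Z) Φ / 64) ≤ 1 := max_le zero_le_one (by linarith)
  linarith

theorem exp_step (a w θ : ℝ) :
    (Real.exp (a - θ * w - θ ^ 2 * w ^ 2 / 2) + Real.exp (a + θ * w - θ ^ 2 * w ^ 2 / 2)) / 2
      ≤ Real.exp a := by
  have h1 := Real.cosh_le_exp_half_sq (θ * w)
  have h2 : (Real.exp (a - θ * w - θ ^ 2 * w ^ 2 / 2) + Real.exp (a + θ * w - θ ^ 2 * w ^ 2 / 2)) / 2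
      = Real.exp a * (Real.cosh (θ * w) * Real.exp (-((θ * w) ^ 2 / 2))) := by
    rw [Real.cosh_eq]
    rw [show a - θ * w - θ ^ 2 * w ^ 2 / 2 = a + (-(θ * w)) + (-((θ * w) ^ 2 / 2)) by ring,
      show a + θ * w - θ ^ 2 * w ^ 2 / 2 = a + (θ * w) + (-((θ * w) ^ 2 / 2)) by ring]
    simp only [Real.exp_add]
    ring
  rw [h2]
  have h3 : Real.cosh (θ * w) * Real.exp (-((θ * w) ^ 2 / 2)) ≤ 1 := by
    calc Real.cosh (θ * w) * Real.exp (-((θ * w) ^ 2 / 2))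
        ≤ Real.exp ((θ * w) ^ 2 / 2) * Real.exp (-((θ * w) ^ 2 / 2)) :=
          mul_le_mul_of_nonneg_right h1 (Real.exp_pos _).le
      _ = 1 := by rw [← Real.exp_add]; simp
  have h4 := mul_le_mul_of_nonneg_left h3 (Real.exp_pos a).le
  linarith

/-- The step inequality. `w0` is the step of the frozen sum (`0` after the freezing), `w p` the step
of the `p`-th sum (`0` if it does not count this vote). -/
theorem certVal_flip (κ θ lam x s Z Φ : ℝ) (D Q : Fin n → ℝ) (hs : s ^ 2 = 1) (w0 : ℝ)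
    (w : Fin n → ℝ) :
    certVal κ θ lam x s Z Φ D Q ≤
      (certVal κ θ lam x s (Z - w0) (Φ + w0 ^ 2) (fun p => D p - w p) (fun p => Q p + w p ^ 2) +
        certVal κ θ lam x s (Z + w0) (Φ + w0 ^ 2) (fun p => D p + w p)
          (fun p => Q p + w p ^ 2)) / 2 := by
  have hF := Fz_step κ 12 (s * Z) Φ (s * w0)
  have hsw : (s * w0) ^ 2 = w0 ^ 2 := by rw [mul_pow, hs, one_mul]
  rw [hsw, ← mul_add, ← mul_sub] at hF
  have hw4 : 0 ≤ 2 * (s * w0) ^ 4 := by positivity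
  have hE : ∀ p, (Real.exp (-(θ * (s * (D p + w p))) - θ * lam + θ ^ 2 * (x - (Q p + w p ^ 2)) / 2) +
      Real.exp (-(θ * (s * (D p - w p))) - θ * lam + θ ^ 2 * (x - (Q p + w p ^ 2)) / 2)) / 2 ≤
      Real.exp (-(θ * (s * D p)) - θ * lam + θ ^ 2 * (x - Q p) / 2) := by
    intro p
    have h := exp_step (-(θ * (s * D p)) - θ * lam + θ ^ 2 * (x - Q p) / 2) (s * w p) θ
    have h1 : -(θ * (s * (D p + w p))) - θ * lam + θ ^ 2 * (x - (Q p + w p ^ 2)) / 2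
        = -(θ * (s * D p)) - θ * lam + θ ^ 2 * (x - Q p) / 2 - θ * (s * w p)
          - θ ^ 2 * (s * w p) ^ 2 / 2 := by
      rw [mul_pow s, hs]; ring
    have h2 : -(θ * (s * (D p - w p))) - θ * lam + θ ^ 2 * (x - (Q p + w p ^ 2)) / 2
        = -(θ * (s * D p)) - θ * lam + θ ^ 2 * (x - Q p) / 2 + θ * (s * w p)
          - θ ^ 2 * (s * w p) ^ 2 / 2 := by
      rw [mul_pow s, hs]; ring
    rw [h1, h2]
    exact h
  have hSum : (∑ p, Real.exp (-(θ * (s * (D p + w p))) - θ * lam +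
      θ ^ 2 * (x - (Q p + w p ^ 2)) / 2) +
      ∑ p, Real.exp (-(θ * (s * (D p - w p))) - θ * lam + θ ^ 2 * (x - (Q p + w p ^ 2)) / 2)) / 2 ≤
      ∑ p, Real.exp (-(θ * (s * D p)) - θ * lam + θ ^ 2 * (x - Q p) / 2) := by
    rw [← Finset.sum_add_distrib, Finset.sum_div]
    exact Finset.sum_le_sum fun p _ => hE p
  unfold certVal
  refine max_le ?_ ?_
  · have h1 := le_max_left (0 : ℝ) (max 0 (Fz κ 12 (s * (Z - w0)) (Φ + w0 ^ 2) / 64) -
      ∑ p, Real.exp (-(θ * (s * (D p - w p))) - θ * lam + θ ^ 2 * (x - (Q p + w p ^ 2)) / 2))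
    have h2 := le_max_left (0 : ℝ) (max 0 (Fz κ 12 (s * (Z + w0)) (Φ + w0 ^ 2) / 64) -
      ∑ p, Real.exp (-(θ * (s * (D p + w p))) - θ * lam + θ ^ 2 * (x - (Q p + w p ^ 2)) / 2))
    linarith
  · have h1 := le_max_right (0 : ℝ) (max 0 (Fz κ 12 (s * (Z - w0)) (Φ + w0 ^ 2) / 64) -
      ∑ p, Real.exp (-(θ * (s * (D p - w p))) - θ * lam + θ ^ 2 * (x - (Q p + w p ^ 2)) / 2))
    have h2 := le_max_right (0 : ℝ) (max 0 (Fz κ 12 (s * (Z + w0)) (Φ + w0 ^ 2) / 64) -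
      ∑ p, Real.exp (-(θ * (s * (D p + w p))) - θ * lam + θ ^ 2 * (x - (Q p + w p ^ 2)) / 2))
    have h3 : max 0 (Fz κ 12 (s * Z) Φ / 64) ≤ (max 0 (Fz κ 12 (s * (Z + w0)) (Φ + w0 ^ 2) / 64) +
        max 0 (Fz κ 12 (s * (Z - w0)) (Φ + w0 ^ 2) / 64)) / 2 := by
      have h4 := le_max_left (0 : ℝ) (Fz κ 12 (s * (Z + w0)) (Φ + w0 ^ 2) / 64)
      have h5 := le_max_left (0 : ℝ) (Fz κ 12 (s * (Z - w0)) (Φ + w0 ^ 2) / 64)
      have h6 := le_max_right (0 : ℝ) (Fz κ 12 (s * (Z + w0)) (Φ + w0 ^ 2) / 64)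
      have h7 := le_max_right (0 : ℝ) (Fz κ 12 (s * (Z - w0)) (Φ + w0 ^ 2) / 64)
      refine max_le (by linarith) ?_
      linarith
    linarith

/-- if the certificate is positive, then `F > 0` and no `D p` is large in the wrong direction -/
theorem certVal_pos (κ θ lam x s Z Φ : ℝ) (D Q : Fin n → ℝ) (hκ : κ ≤ 1) (hθ : 0 < θ)
    (hΦ0 : 0 ≤ Φ) (hΦ : Φ ≤ 11 / 10) (hQ : ∀ p, Q p ≤ x)
    (h : 0 < certVal κ θ lam x s Z Φ D Q) :
    0 < Fz κ 12 (s * Z) Φ ∧ ∀ p, -(s * D p) < lam := by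
  have hF := Fz_le κ (s * Z) Φ hκ hΦ0 hΦ
  unfold certVal at h
  have h1 : 0 < max 0 (Fz κ 12 (s * Z) Φ / 64) -
      ∑ p, Real.exp (-(θ * (s * D p)) - θ * lam + θ ^ 2 * (x - Q p) / 2) := by
    rcases max_cases (0 : ℝ) (max 0 (Fz κ 12 (s * Z) Φ / 64) -
      ∑ p, Real.exp (-(θ * (s * D p)) - θ * lam + θ ^ 2 * (x - Q p) / 2)) with h2 | h2
    · rw [h2.1] at h; exact absurd h (lt_irrefl _)
    · rw [h2.1] at h; exact h
  have h0 : ∀ p, Real.exp (-(θ * (s * D p)) - θ * lam + θ ^ 2 * (x - Q p) / 2) ≤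
      ∑ p, Real.exp (-(θ * (s * D p)) - θ * lam + θ ^ 2 * (x - Q p) / 2) := fun p =>
    Finset.single_le_sum (f := fun p => Real.exp (-(θ * (s * D p)) - θ * lam +
      θ ^ 2 * (x - Q p) / 2)) (fun q _ => (Real.exp_pos _).le) (Finset.mem_univ p)
  have hsum : 0 ≤ ∑ p, Real.exp (-(θ * (s * D p)) - θ * lam + θ ^ 2 * (x - Q p) / 2) :=
    Finset.sum_nonneg fun p _ => (Real.exp_pos _).le
  constructor
  · by_contra hcon
    push Not at hcon
    have : max 0 (Fz κ 12 (s * Z) Φ / 64) = 0 := max_eq_left (by linarith)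
    linarith
  · intro p
    have h2 : max 0 (Fz κ 12 (s * Z) Φ / 64) ≤ 1 := max_le zero_le_one (by linarith)
    have h3 : Real.exp (-(θ * (s * D p)) - θ * lam + θ ^ 2 * (x - Q p) / 2) < 1 := by
      have := h0 p
      linarith
    rw [Real.exp_lt_one_iff] at h3
    have h4 : 0 ≤ θ ^ 2 * (x - Q p) / 2 := by
      have := hQ p
      have : 0 ≤ x - Q p := by linarith
      positivity
    have h5 : θ * (-(s * D p)) < θ * lam := by linarith
    exact lt_of_mul_lt_mul_left h5 hθ.le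

theorem certVal_init (κ lam x s : ℝ) (hx : 0 < x) :
    κ / 64 - n * Real.exp (-(lam ^ 2 / (2 * x))) ≤
      certVal (n := n) κ (lam / x) lam x s 0 0 (fun _ => 0) (fun _ => 0) := by
  unfold certVal
  refine le_max_of_le_right ?_
  have h1 : Fz κ 12 (s * 0) 0 = κ := by rw [mul_zero]; exact Fz_zero κ 12
  rw [h1]
  have h2 : ∀ p : Fin n, Real.exp (-(lam / x * (s * (0 : ℝ))) - lam / x * lam +
      (lam / x) ^ 2 * (x - 0) / 2) = Real.exp (-(lam ^ 2 / (2 * x))) := by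
    intro p
    congr 1
    field_simp
    ring
  rw [Finset.sum_congr rfl fun p _ => h2 p]
  simp only [Finset.sum_const, Finset.card_univ, Fintype.card_fin, nsmul_eq_mul]
  have := le_max_right 0 (κ / 64)
  linarith

/-- The abstract certificate of stage 1. `Z`, `Φ`: sum and clock of the votes flipped before the
freezing; `D p`, `Q p`: sum and clock of the later votes counted for `p`. `w0`, `w`: the steps. -/
theorem isCert_of {O : Type} (P : Sub n O) (κ lam x δ s : ℝ) (hκ : κ ≤ 1) (hlam : 0 < lam)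
    (hx : 0 < x) (hs : s ^ 2 = 1)
    (hδ : δ + n * Real.exp (-(lam ^ 2 / (2 * x))) ≤ κ / 64)
    (Z Φ : List (Fin n × Bool) → ℝ) (D Q : List (Fin n × Bool) → Fin n → ℝ)
    (hZ0 : Z [] = 0) (hΦ00 : Φ [] = 0) (hD0 : ∀ p, D [] p = 0) (hQ0 : ∀ p, Q [] p = 0)
    (hΦ0 : ∀ h, 0 ≤ Φ h) (hΦ : ∀ h, Φ h ≤ 11 / 10) (hQ : ∀ h p, Q h p ≤ x)
    (hflip : ∀ h i, P.IsFlip (P.cfg h) i → ∃ (w0 : ℝ) (w : Fin n → ℝ), ∀ b : Bool,
      Z (h ++ [(i, b)]) = Z h + (if b then 1 else -1) * w0 ∧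
      Φ (h ++ [(i, b)]) = Φ h + w0 ^ 2 ∧
      ∀ p, D (h ++ [(i, b)]) p = D h p + (if b then 1 else -1) * w p ∧
        Q (h ++ [(i, b)]) p = Q h p + w p ^ 2)
    (hdet : ∀ h i b, ¬ P.IsFlip (P.cfg h) i → Z (h ++ [(i, b)]) = Z h ∧ Φ (h ++ [(i, b)]) = Φ h ∧
      ∀ p, D (h ++ [(i, b)]) p = D h p ∧ Q (h ++ [(i, b)]) p = Q h p)
    (good : List (Fin n × Bool) → Prop)
    (hgood : ∀ h, 0 < Fz κ 12 (s * Z h) (Φ h) → (∀ p, -(s * D h p) < lam) → good h) :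
    P.IsCert (fun h => certVal κ (lam / x) lam x s (Z h) (Φ h) (D h) (Q h)) δ good := by
  refine ⟨fun h => certVal_nonneg _ _ _ _ _ _ _ _ _, fun h => certVal_le_one _ _ _ _ _ _ _ _ _
    hκ (hΦ0 h) (hΦ h), ?_, ?_, ?_, ?_⟩
  · have h1 := certVal_init (n := n) κ lam x s hx
    have h2 : D [] = fun _ => 0 := funext hD0
    have h3 : Q [] = fun _ => 0 := funext hQ0
    simp only [hZ0, hΦ00, h2, h3]
    linarith
  · intro h i hf
    obtain ⟨w0, w, hw⟩ := hflip h i hf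
    have h1 := certVal_flip κ (lam / x) lam x s (Z h) (Φ h) (D h) (Q h) hs w0 w
    obtain ⟨f1, f2, f3⟩ := hw false
    obtain ⟨t1, t2, t3⟩ := hw true
    have e1 : Z (h ++ [(i, false)]) = Z h - w0 := by rw [f1]; simp; ring
    have e2 : Z (h ++ [(i, true)]) = Z h + w0 := by rw [t1]; simp
    have e3 : D (h ++ [(i, false)]) = fun p => D h p - w p := by
      funext p; rw [(f3 p).1]; simp; ring
    have e4 : D (h ++ [(i, true)]) = fun p => D h p + w p := by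
      funext p; rw [(t3 p).1]; simp
    have e5 : Q (h ++ [(i, false)]) = fun p => Q h p + w p ^ 2 := funext fun p => (f3 p).2
    have e6 : Q (h ++ [(i, true)]) = fun p => Q h p + w p ^ 2 := funext fun p => (t3 p).2
    simp only [e1, e2, e3, e4, e5, e6, f2, t2]
    exact h1
  · intro h i b hf
    obtain ⟨h1, h2, h3⟩ := hdet h i b hf
    have e3 : D (h ++ [(i, b)]) = D h := funext fun p => (h3 p).1
    have e4 : Q (h ++ [(i, b)]) = Q h := funext fun p => (h3 p).2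
    simp only [h1, h2, e3, e4, le_refl]
  · intro h hpos
    obtain ⟨h1, h2⟩ := certVal_pos κ (lam / x) lam x s (Z h) (Φ h) (D h) (Q h) hκ
      (div_pos hlam hx) (hΦ0 h) (hΦ h) (hQ h) hpos
    exact hgood h h1 h2

end RC
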