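import Pool.Agent.H25.RC.Cert
import Pool.Agent.H79.RC.Assemble

/-!
# Choice of the parameters of stage 1
-/

namespace RC

open Finset Filter

/-- statement of part P for one `n` -/
def PatternFor (n : ℕ) : Prop :=
  ∀ (d b0 : ℕ) (ε : ℝ), 0 < d → 0 < ε → ε ≤ 1 →
    100 * (n : ℝ) * Real.log n ≤ ε ^ 2 * d * b0 →
    ∃ Γ : Fin n → Fin d → Fin n, ∀ A : Finset (Fin n), ∀ B : Finset (Fin n),
      (∀ p ∈ B, ε * (d : ℝ) * (A.card + b0) <
        |(n : ℝ) * (univ.filter fun i : Fin d => Γ p i ∈ A).card - (d : ℝ) * A.card|) →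
      B.card < b0

namespace Params

theorem sum_inv_pow (η : ℝ) (hη : 0 < η) (B : ℕ) :
    ∑ b ∈ range B, η / (1 + η) ^ b = (1 + η) - (1 + η) / (1 + η) ^ B := by
  induction B with
  | zero => simp
  | succ B ih =>
      rw [Finset.sum_range_succ, ih, pow_succ]
      have h : (1 + η) ^ B ≠ 0 := by positivity
      have h' : (1 + η) ≠ 0 := by positivity
      field_simp
      ring

theorem core (n : ℕ) (L Y : ℝ) (hn : 2 ≤ n) (hlog : Real.log n = L) (hY4 : Y ^ 4 = n)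
    (hY0 : 0 < Y) (hL : 10 ^ 6 ≤ L) (hYL : 10 ^ 8 * L ^ 12 ≤ Y) (pat : PatternFor n) :
    ∃ K T : ℕ, 1 ≤ K ∧ K ^ 3 ≤ n ∧ T ≤ 4101 * n ∧ Nonempty (Stage1 n T K (1 / 640)) := by
  have hL0 : 0 < L := lt_of_lt_of_le (by norm_num) hL
  have hL1 : 1 ≤ L := le_trans (by norm_num) hL
  have hnR : (0 : ℝ) < n := by positivity
  have hLk : ∀ k l : ℕ, k ≤ l → L ^ k ≤ L ^ l := fun k l h => pow_le_pow_right₀ hL1 h
  have hLY : ∀ k : ℕ, k ≤ 12 → 10 ^ 8 * L ^ k ≤ Y := fun k hk =>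
    le_trans (mul_le_mul_of_nonneg_left (hLk k 12 hk) (by norm_num)) hYL
  have hY8 : 10 ^ 8 ≤ Y := by simpa using hLY 0 (by norm_num)
  have hY1 : 1 ≤ Y := le_trans (by norm_num) hY8
  set η : ℝ := 1 / L ^ 2 with hη
  have hη0 : 0 < η := by positivity
  have hηL : η * L ^ 2 = 1 := by rw [hη]; field_simp
  have hη1 : η ≤ 1 / 10 ^ 12 := by
    rw [hη]
    apply one_div_le_one_div_of_le (by norm_num)
    calc (10 : ℝ) ^ 12 = (10 ^ 6) ^ 2 := by norm_num
      _ ≤ L ^ 2 := pow_le_pow_left₀ (by norm_num) hL 2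
  -- the number of blocks
  have hex : ∃ B : ℕ, Y ^ 3 ≤ (1 + η) ^ B := by
    obtain ⟨B, hB⟩ := pow_unbounded_of_one_lt (Y ^ 3) (show (1 : ℝ) < 1 + η by linarith)
    exact ⟨B, hB.le⟩
  classical
  obtain ⟨B, hB, hBmin⟩ : ∃ B : ℕ, Y ^ 3 ≤ (1 + η) ^ B ∧ ∀ m < B, (1 + η) ^ m < Y ^ 3 :=
    ⟨Nat.find hex, Nat.find_spec hex, fun m hm => not_le.mp (Nat.find_min hex hm)⟩
  have hB0 : 0 < B := by
    rcases Nat.eq_zero_or_pos B with h | h
    · subst h
      have : 1 < Y ^ 3 := by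
        have : (1 : ℝ) < Y := lt_of_lt_of_le (by norm_num) hY8
        exact one_lt_pow₀ this (by norm_num)
      simp only [pow_zero] at hB
      linarith
    · exact h
  have hBup : (1 + η) ^ B ≤ 2 * Y ^ 3 := by
    have h1 := hBmin (B - 1) (by omega)
    have h2 : (1 + η) ^ B = (1 + η) ^ (B - 1) * (1 + η) := by
      rw [← pow_succ]; congr 1; omega
    rw [h2]
    have h3 : 0 < Y ^ 3 := by positivity
    nlinarith
  have hBL : (B : ℝ) ≤ 2 * L ^ 3 := by
    have h1 := hBmin (B - 1) (by omega)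
    have h2 := Real.log_lt_log (by positivity) h1
    rw [Real.log_pow, Real.log_pow] at h2
    have h3 : 4 * Real.log Y = L := by
      rw [← hlog, ← hY4, Real.log_pow]; norm_num
    have h4 : η / 2 ≤ Real.log (1 + η) := by
      have h5 := Real.one_sub_inv_le_log_of_pos (show (0 : ℝ) < 1 + η by linarith)
      refine le_trans ?_ h5
      have h6 : (1 - (1 + η)⁻¹) = η / (1 + η) := by field_simp; ring
      rw [h6]
      apply div_le_div_of_nonneg_left hη0.le (by linarith)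
      have : η ≤ 1 := le_trans hη1 (by norm_num)
      linarith
    have h5 : ((B - 1 : ℕ) : ℝ) = B - 1 := by
      rw [Nat.cast_sub (by omega)]; norm_num
    rw [h5] at h2
    have hB1 : (0 : ℝ) ≤ (B : ℝ) - 1 := by
      have : (1 : ℝ) ≤ B := by exact_mod_cast hB0
      linarith
    have h6 : ((B : ℝ) - 1) * (η / 2) ≤ ((B : ℝ) - 1) * Real.log (1 + η) :=
      mul_le_mul_of_nonneg_left h4 hB1
    push_cast at h2
    have h7 : ((B : ℝ) - 1) * (η / 2) < 3 / 4 * L := by linarith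
    have h8 : ((B : ℝ) - 1) * (η / 2) * (2 * L ^ 2) < 3 / 4 * L * (2 * L ^ 2) :=
      mul_lt_mul_of_pos_right h7 (by positivity)
    have h9 : ((B : ℝ) - 1) * (η / 2) * (2 * L ^ 2) = (B - 1) * (η * L ^ 2) := by ring
    rw [h9, hηL] at h8
    have h10 : 1 ≤ L ^ 3 / 2 := by
      have : (10 ^ 6 : ℝ) ^ 3 ≤ L ^ 3 := pow_le_pow_left₀ (by norm_num) hL 3
      linarith [this]
    nlinarith
  have hBY : 10 ^ 6 * (B : ℝ) ≤ Y := by
    have := hLY 3 (by norm_num)
    nlinarith [pow_pos hL0 3]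
  have hYn : Y ≤ n := by
    rw [← hY4]
    calc Y = Y ^ 1 := (pow_one Y).symm
      _ ≤ Y ^ 4 := pow_le_pow_right₀ hY1 (by norm_num)
  have hBn : 10 ^ 6 * (B : ℝ) ≤ n := hBY.trans hYn
  have hBnN : 2 * B ≤ n := by
    have : ((2 * B : ℕ) : ℝ) ≤ n := by
      push_cast
      have : (0 : ℝ) ≤ B := Nat.cast_nonneg B
      linarith
    exact_mod_cast this
  have hBR : (0 : ℝ) < B := by exact_mod_cast hB0
  -- `d`
  set d : ℕ := n / B with hd
  have hd0 : 0 < d := Nat.div_pos (by omega) hB0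
  have hBd : B * d ≤ n := Nat.mul_div_le n B
  have hdR : (n : ℝ) ≤ 2 * B * d := by
    have h1 : n < B * (n / B) + B := Nat.lt_mul_div_succ n hB0 |>.trans_eq (by ring)
    have h2 : (n : ℝ) < B * d + B := by rw [hd]; exact_mod_cast h1
    have h3 : 2 * (B : ℝ) ≤ n := by exact_mod_cast hBnN
    linarith
  -- `b0`
  set b0 : ℕ := ⌈200 * B * L ^ 5⌉₊ with hb0
  have hb0le : (200 : ℝ) * B * L ^ 5 ≤ b0 := Nat.le_ceil _
  have hb0up : (b0 : ℝ) ≤ 401 * L ^ 8 := by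
    have h1 : (b0 : ℝ) < 200 * B * L ^ 5 + 1 := Nat.ceil_lt_add_one (by positivity)
    have h2 : (200 : ℝ) * B * L ^ 5 ≤ 200 * (2 * L ^ 3) * L ^ 5 := by gcongr
    have h3 : (200 : ℝ) * (2 * L ^ 3) * L ^ 5 = 400 * L ^ 8 := by ring
    have h4 : 1 ≤ L ^ 8 := one_le_pow₀ hL1
    linarith
  obtain ⟨Γ, hΓ⟩ := pat d b0 η hd0 hη0 (hη1.trans (by norm_num)) (by
    rw [hlog]
    have h1 : η ^ 2 * L ^ 4 = 1 := by
      calc η ^ 2 * L ^ 4 = (η * L ^ 2) ^ 2 := by ring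
        _ = 1 := by rw [hηL]; norm_num
    have h2 : η ^ 2 * d * (200 * B * L ^ 5) ≤ η ^ 2 * d * b0 := by gcongr
    have h3 : η ^ 2 * d * (200 * B * L ^ 5) = (η ^ 2 * L ^ 4) * (100 * (2 * B * d) * L) := by ring
    rw [h3, h1, one_mul] at h2
    refine le_trans ?_ h2
    have : 100 * (n : ℝ) ≤ 100 * (2 * B * d) := by linarith
    exact mul_le_mul_of_nonneg_right this hL0.le)
  -- `u`
  set p : SOne.Par n := ⟨B, d, b0, η, η, 1 / 32,
    fun b => ⌈η / ((1 / 32) ^ 2 * ((1 + η) ^ b / n))⌉₊, Γ⟩ with hp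
  have hpu : ∀ b, p.u b = (1 + η) ^ b / n := fun b => rfl
  have hu0 : ∀ b, 0 < p.u b := fun b => by rw [hpu]; positivity
  have huBlo : 1 / Y ≤ p.u B := by
    rw [hpu, ← hY4, div_le_div_iff₀ hY0 (by positivity)]
    calc 1 * Y ^ 4 = Y ^ 3 * Y := by ring
      _ ≤ (1 + η) ^ B * Y := by gcongr
  have huBup : p.u B ≤ 2 / Y := by
    rw [hpu, ← hY4, div_le_div_iff₀ (by positivity) hY0]
    calc (1 + η) ^ B * Y ≤ 2 * Y ^ 3 * Y := by gcongr
      _ = 2 * Y ^ 4 := by ring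
  have hVB : p.V B = p.u B - 1 / n := by
    unfold SOne.Par.V SOne.Par.u; simp
  have hVBup : p.V B ≤ 2 / Y := by
    rw [hVB]
    have : 0 < 1 / (n : ℝ) := by positivity
    linarith
  have hVBlo : 1 / (2 * Y) ≤ p.V B := by
    rw [hVB]
    have h1 : 1 / (n : ℝ) ≤ 1 / (2 * Y) := by
      rw [← hY4]
      apply one_div_le_one_div_of_le (by positivity)
      have : (2 : ℝ) ≤ Y ^ 3 := by
        calc (2 : ℝ) ≤ (10 ^ 8) ^ 3 := by norm_num
          _ ≤ Y ^ 3 := pow_le_pow_left₀ (by norm_num) hY8 3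
      calc 2 * Y ≤ Y ^ 3 * Y := by gcongr
        _ = Y ^ 4 := by ring
    have h2 : 1 / Y = 1 / (2 * Y) + 1 / (2 * Y) := by field_simp; norm_num
    linarith
  have hpB : p.B = B := rfl
  have huB1 : p.u B ≤ 1 := by
    refine huBup.trans ?_
    rw [div_le_one hY0]
    linarith
  have hbVB : 2 * ((B : ℝ) * b0) * p.V B ≤ 1 / (8192 * L) := by
    have h1 : 2 * ((B : ℝ) * b0) * p.V B ≤ 2 * ((2 * L ^ 3) * (401 * L ^ 8)) * (2 / Y) := by
      have hV0 : 0 ≤ p.V B := le_trans (by positivity) hVBlo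
      have hb00 : (0 : ℝ) ≤ b0 := Nat.cast_nonneg b0
      gcongr
    refine h1.trans ?_
    rw [le_div_iff₀ (by positivity)]
    have h2 : 2 * ((2 * L ^ 3) * (401 * L ^ 8)) * (2 / Y) * (8192 * L) =
        (2 * 2 * 401 * 2 * 8192 * L ^ 12) / Y := by ring
    rw [h2, div_le_one hY0]
    refine le_trans ?_ hYL
    have : 0 ≤ L ^ 12 := by positivity
    nlinarith
  have hη8 : 12 * η ≤ 1 / (8192 * L) := by
    rw [hη, le_div_iff₀ (by positivity)]
    have h2 : 12 * (1 / L ^ 2) * (8192 * L) = 98304 / L := by field_simp; norm_num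
    rw [h2, div_le_one hL0]
    linarith
  have hΨm : p.Ψm ≤ 1 + 5 * η := by
    have : p.Ψm = 1 + 4 * η + η * p.u B := rfl
    rw [this]
    nlinarith
  have hΨm2 : p.Ψm ≤ 2 := by linarith
  have hΦm : p.Φm ≤ 1 + 8 * η + 1 / (8192 * L) := by
    have : p.Φm = p.Ψm + η * (p.Ψm + 1) + 2 * ((B : ℝ) * b0) * p.V B := rfl
    rw [this]
    nlinarith
  have hLinv : 1 / (8192 * L) ≤ 1 / 8192 := by
    apply one_div_le_one_div_of_le (by norm_num)
    linarith
  have hOK : p.OK (1 / (4096 * L)) := by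
    refine ⟨by omega, hd0, hB0, hη0, hη0, hη1.trans (by norm_num), by norm_num [hp],
      by norm_num [hp], ?_, ?_, hΓ, ?_, ?_, by positivity, ?_, ?_⟩
    · intro b _
      exact Nat.ceil_pos.mpr (by positivity)
    · intro b _
      have h1 : η / ((1 / 32) ^ 2 * ((1 + η) ^ b / n)) ≤ (p.N b : ℝ) := Nat.le_ceil _
      rw [div_le_iff₀ (by positivity)] at h1
      calc η ≤ (p.N b : ℝ) * ((1 / 32) ^ 2 * ((1 + η) ^ b / n)) := h1
        _ = (1 / 32) ^ 2 * p.u b * p.N b := by rw [hpu]; ring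
    · have h1 : (b0 : ℝ) * p.V B ≤ 401 * L ^ 8 * (2 / Y) := by
        have hV0 : 0 ≤ p.V B := le_trans (by positivity) hVBlo
        gcongr
      refine h1.trans ?_
      have h2 : 401 * L ^ 8 * (2 / Y) = (802 * L ^ 8) / Y := by ring
      rw [h2, div_le_one hY0]
      refine le_trans ?_ (hLY 8 (by norm_num))
      have : 0 ≤ L ^ 8 := by positivity
      nlinarith
    · linarith
    · have h1 : 1 / (4096 * L) = 1 / (8192 * L) + 1 / (8192 * L) := by field_simp; norm_num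
      have h2 : p.ε = η := rfl
      rw [h1, h2]
      linarith
    · have h1 : (1 / 32 : ℝ) ^ 2 / (2 * (1 / (4096 * L))) = 2 * L := by
        field_simp; norm_num
      rw [h1, Real.exp_neg, ← hlog, mul_comm (2 : ℝ), Real.exp_mul, Real.exp_log hnR]
      have h2 : (n : ℝ) ^ (2 : ℝ) = n ^ 2 := by norm_cast
      rw [h2]
      have h3 : (n : ℝ) * ((n : ℝ) ^ 2)⁻¹ = 1 / n := by field_simp
      rw [h3]
      apply one_div_le_one_div_of_le (by norm_num)
      linarith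
  -- `K`
  set K : ℕ := ⌈11 / 5 * Y⌉₊ with hK
  have hKlo : 11 / 5 * Y ≤ K := Nat.le_ceil _
  have hKup : (K : ℝ) ≤ 3 * Y := by
    have : (K : ℝ) < 11 / 5 * Y + 1 := Nat.ceil_lt_add_one (by positivity)
    linarith
  have hK3 : K ^ 3 ≤ n := by
    have : ((K ^ 3 : ℕ) : ℝ) ≤ n := by
      push_cast
      rw [← hY4]
      calc (K : ℝ) ^ 3 ≤ (3 * Y) ^ 3 := pow_le_pow_left₀ (Nat.cast_nonneg K) hKup 3
        _ = 27 * Y ^ 3 := by ring
        _ ≤ Y * Y ^ 3 := by gcongr; linarith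
        _ = Y ^ 4 := by ring
    exact_mod_cast this
  have hK1 : 1 ≤ K := Nat.ceil_pos.mpr (by positivity)
  have hKV : 11 / 10 ≤ K * p.V p.B := by
    have h1 : (11 / 5 * Y) * (1 / (2 * Y)) ≤ K * p.V p.B := by
      rw [hpB]
      gcongr
    have h2 : (11 / 5 * Y) * (1 / (2 * Y)) = 11 / 10 := by field_simp; norm_num
    linarith
  -- `T`
  refine ⟨K, 2 * (∑ b ∈ range p.B, p.N b) + p.B * p.d + 2 * n, hK1, hK3, ?_, hOK.stage1 hKV le_rfl⟩
  have hN : ((∑ b ∈ range B, p.N b : ℕ) : ℝ) ≤ B + 2048 * n := by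
    push_cast
    have h1 : ∀ b ∈ range B, (p.N b : ℝ) ≤ 1024 * n * (η / (1 + η) ^ b) + 1 := by
      intro b _
      have h2 : (p.N b : ℝ) < η / ((1 / 32) ^ 2 * ((1 + η) ^ b / n)) + 1 :=
        Nat.ceil_lt_add_one (by positivity)
      have h3 : η / ((1 / 32) ^ 2 * ((1 + η) ^ b / n)) = 1024 * n * (η / (1 + η) ^ b) := by
        field_simp; norm_num
      rw [h3] at h2
      exact h2.le
    refine (Finset.sum_le_sum h1).trans ?_
    rw [Finset.sum_add_distrib, ← Finset.mul_sum, sum_inv_pow η hη0]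
    simp only [sum_const, card_range, nsmul_eq_mul, mul_one]
    have h2 : (1 + η) - (1 + η) / (1 + η) ^ B ≤ 2 := by
      have : 0 ≤ (1 + η) / (1 + η) ^ B := by positivity
      have : η ≤ 1 := hη1.trans (by norm_num)
      linarith
    nlinarith
  have hT : ((2 * (∑ b ∈ range B, p.N b) + B * d + 2 * n : ℕ) : ℝ) ≤ 4101 * n := by
    have h1 : ((B * d : ℕ) : ℝ) ≤ n := by exact_mod_cast hBd
    have h2 : 2 * (B : ℝ) ≤ n := by exact_mod_cast hBnN
    push_cast at hN h1 ⊢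
    linarith
  exact_mod_cast hT

end Params

theorem exists_stage1_of (hpat : ∀ n, 2 ≤ n → PatternFor n) : Stage1Statement := by
  refine ⟨1 / 640, by norm_num, 4101, ?_⟩
  have hL : ∀ᶠ n : ℕ in atTop, (10 : ℝ) ^ 6 ≤ Real.log n :=
    (Real.tendsto_log_atTop.comp tendsto_natCast_atTop_atTop).eventually_ge_atTop _
  have hY : ∀ᶠ n : ℕ in atTop, 10 ^ 8 * (Real.log n) ^ 12 ≤ (n : ℝ) ^ ((1 : ℝ) / 4) := by
    have h1 := (isLittleO_log_rpow_rpow_atTop (12 : ℝ) (show (0 : ℝ) < 1 / 4 by norm_num)).bound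
      (show (0 : ℝ) < 1 / 10 ^ 8 by norm_num)
    have h2 := tendsto_natCast_atTop_atTop (R := ℝ) |>.eventually h1
    filter_upwards [h2, hL] with n hn hLn
    have hLn0 : 0 ≤ Real.log n := le_trans (by norm_num) hLn
    rw [Real.norm_of_nonneg (by positivity), Real.norm_of_nonneg (by positivity)] at hn
    have h3 : Real.log n ^ (12 : ℝ) = Real.log n ^ 12 := by norm_cast
    rw [h3] at hn
    linarith
  filter_upwards [hL, hY, eventually_ge_atTop 2] with n h1 h2 h3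
  refine Params.core n (Real.log n) ((n : ℝ) ^ ((1 : ℝ) / 4)) h3 rfl ?_ ?_ h1 h2 (hpat n h3)
  · rw [← Real.rpow_natCast, ← Real.rpow_mul (Nat.cast_nonneg n)]
    norm_num
  · have : (0 : ℝ) < n := by positivity
    positivity

end RC
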